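import Mathlib

/-!
# Sketch-and-solve with an oblivious subspace injection of injectivity one

For every dimension `d ≥ 1`, every number `p ≥ 1` of right-hand sides and every failure probability
`δ` there are an oblivious subspace injection with injectivity `1` and failure probability `δ` and a
least-squares problem for which the sketch-and-solve error is, for every outcome of the random
matrix, at least `sqrt (1 + d δ ^ 2 / (1 + (d - 1) δ) ^ 2)` times the optimum.  The factor does not
tend to `1` with the distortion, so the approximation factor is not of the form `1 + O(ε)`.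
-/

set_option autoImplicit false

open MeasureTheory Finset

namespace Pool.Agent.Results.MP_4d58d7_an.SureFactor

/-- The Frobenius norm. -/
noncomputable def frob {a b : ℕ} (M : Matrix (Fin a) (Fin b) ℝ) : ℝ :=
  Real.sqrt (∑ i, ∑ j, M i j ^ 2)

/-- The square of the Euclidean norm. -/
def nsq {a : ℕ} (x : Fin a → ℝ) : ℝ := ∑ i, x i ^ 2

/-- `G` is the Moore-Penrose pseudoinverse of `M` (the four Penrose equations). -/
def IsPinv {a b : ℕ} (M : Matrix (Fin a) (Fin b) ℝ) (G : Matrix (Fin b) (Fin a) ℝ) : Prop :=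
  M * G * M = M ∧ G * M * G = G ∧ (M * G).transpose = M * G ∧ (G * M).transpose = G * M

/-- The least value of `‖A X - B‖_F`. -/
noncomputable def opt {n d p : ℕ} (A : Matrix (Fin n) (Fin d) ℝ) (B : Matrix (Fin n) (Fin p) ℝ) :
    ℝ := ⨅ X : Matrix (Fin d) (Fin p) ℝ, frob (A * X - B)

/-- The random matrix `Ω` (on the probability space `S`, `P`) is an oblivious subspace injection of
dimension `r` with injectivity `α` and failure probability `δ`. -/
structure IsOSI {S : Type} [MeasurableSpace S] (P : Measure S) {n k : ℕ}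
    (Ω : S → Matrix (Fin n) (Fin k) ℝ) (r : ℕ) (α δ : ℝ) : Prop where
  prob : IsProbabilityMeasure P
  meas : ∀ i j, Measurable fun s => Ω s i j
  int : ∀ x : Fin n → ℝ, Integrable (fun s => nsq ((Ω s).transpose.mulVec x)) P
  iso : ∀ x : Fin n → ℝ, ∫ s, nsq ((Ω s).transpose.mulVec x) ∂P = nsq x
  inj : ∀ V : Submodule ℝ (Fin n → ℝ), Module.finrank ℝ V = r →
    ENNReal.ofReal (1 - δ) ≤ P {s | ∀ x ∈ V, α * nsq x ≤ nsq ((Ω s).transpose.mulVec x)}

/-! ### The example -/

/-- The design matrix: the identity with a zero row below. -/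
private def eA (d : ℕ) : Matrix (Fin (d + 1)) (Fin d) ℝ :=
  Matrix.of fun i j => if i = j.castSucc then 1 else 0

/-- The right-hand sides: all columns are `e_0 + e_d`. -/
private def eB (d p : ℕ) : Matrix (Fin (d + 1)) (Fin p) ℝ :=
  Matrix.of fun i _ => (if i = 0 then 1 else 0) + (if i = Fin.last d then 1 else 0)

/-- The outcomes: failure, or an index and a sign. -/
private abbrev eS (d : ℕ) : Type := Option (Fin d × Bool)

/-- The last column of the sketch. -/
private def eu (d : ℕ) (a s : ℝ) (J : Fin d) (σ : Bool) : Fin (d + 1) → ℝ := fun i =>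
  (if i = J.castSucc then a else 0) + (if i = Fin.last d then (if σ then s else -s) else 0)

/-- The sketch: `0`, or the identity with one more column. -/
private def eO (d : ℕ) (a s : ℝ) : eS d → Matrix (Fin (d + 1)) (Fin (d + 2)) ℝ
  | none => 0
  | some (J, σ) => Matrix.of fun i j =>
      Fin.lastCases (motive := fun _ => ℝ) (eu d a s J σ i) (fun l => if i = l then 1 else 0) j

/-- The weights of the outcomes. -/
private noncomputable def ew (d : ℕ) (δ : ℝ) : eS d → ℝ
  | none => δ
  | some _ => (1 - δ) / (2 * d)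

private instance (d : ℕ) : MeasurableSpace (eS d) := ⊤

/-- The distribution. -/
private noncomputable def eP (d : ℕ) (δ : ℝ) : Measure (eS d) :=
  Measure.sum fun s => ENNReal.ofReal (ew d δ s) • Measure.dirac s

private lemma nsq_O (d : ℕ) (a s : ℝ) (J : Fin d) (σ : Bool) (x : Fin (d + 1) → ℝ) :
    nsq ((eO d a s (some (J, σ))).transpose.mulVec x) =
      nsq x + (a * x J.castSucc + (if σ then s else -s) * x (Fin.last d)) ^ 2 := by
  unfold nsq
  rw [Fin.sum_univ_castSucc]
  congr 1
  · refine Finset.sum_congr rfl fun l _ => ?_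
    congr 1
    simp [Matrix.mulVec, dotProduct, eO]
  · congr 1
    simp [Matrix.mulVec, dotProduct, eO, eu, add_mul, Finset.sum_add_distrib]

private lemma nsq_nonneg {a : ℕ} (x : Fin a → ℝ) : 0 ≤ nsq x :=
  Finset.sum_nonneg fun _ _ => sq_nonneg _

private lemma eP_singleton (d : ℕ) (δ : ℝ) (s : eS d) : eP d δ {s} = ENNReal.ofReal (ew d δ s) := by
  classical
  unfold eP
  rw [Measure.sum_apply _ (MeasurableSet.of_discrete), tsum_fintype]
  simp only [Measure.smul_apply, smul_eq_mul, Measure.dirac_apply]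
  rw [Finset.sum_eq_single s]
  · simp
  · intro t _ hts
    simp [hts]
  · intro h
    exact absurd (Finset.mem_univ _) h

private lemma ew_nonneg (d : ℕ) {δ : ℝ} (h0 : 0 < δ) (h1 : δ < 1) (s : eS d) : 0 ≤ ew d δ s := by
  rcases s with _ | s
  · exact h0.le
  · show 0 ≤ (1 - δ) / (2 * d)
    have : 0 ≤ 1 - δ := by linarith
    positivity

private lemma ew_sum {d : ℕ} (hd : 0 < d) {δ : ℝ} : ∑ s, ew d δ s = 1 := by
  rw [Fintype.sum_option]
  have h : ∀ i : Fin d × Bool, ew d δ (some i) = (1 - δ) / (2 * d) := fun _ => rfl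
  rw [Finset.sum_congr rfl fun i _ => h i, Finset.sum_const, Finset.card_univ, Fintype.card_prod,
    Fintype.card_fin, Fintype.card_bool]
  have hd' : (d : ℝ) ≠ 0 := by exact_mod_cast hd.ne'
  show δ + _ = 1
  rw [nsmul_eq_mul]
  push_cast
  field_simp
  ring

private lemma eP_prob {d : ℕ} (hd : 0 < d) {δ : ℝ} (h0 : 0 < δ) (h1 : δ < 1) :
    IsProbabilityMeasure (eP d δ) := by
  constructor
  rw [← Finset.coe_univ, ← MeasureTheory.sum_measure_singleton]
  rw [Finset.sum_congr rfl fun s _ => eP_singleton d δ s,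
    ← ENNReal.ofReal_sum_of_nonneg fun s _ => ew_nonneg d h0 h1 s, ew_sum hd, ENNReal.ofReal_one]

private lemma eP_integral {d : ℕ} (hd : 0 < d) {δ : ℝ} (h0 : 0 < δ) (h1 : δ < 1) (f : eS d → ℝ) :
    Integrable f (eP d δ) ∧ ∫ s, f s ∂(eP d δ) = ∑ s, ew d δ s * f s := by
  have := eP_prob hd h0 h1
  have hi : Integrable f (eP d δ) := Integrable.of_finite
  refine ⟨hi, ?_⟩
  rw [MeasureTheory.integral_fintype hi]
  refine Finset.sum_congr rfl fun s _ => ?_
  rw [Measure.real, eP_singleton, ENNReal.toReal_ofReal (ew_nonneg d h0 h1 s), smul_eq_mul]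

private lemma e_osi {d : ℕ} (hd : 0 < d) {δ : ℝ} (h0 : 0 < δ) (h1 : δ < 1) {a s : ℝ}
    (hs : s ^ 2 = δ / (1 - δ)) (ha : a ^ 2 = d * s ^ 2) {α : ℝ} (hα : α ≤ 1) (r : ℕ) :
    IsOSI (eP d δ) (eO d a s) r α δ where
  prob := eP_prob hd h0 h1
  meas := fun i j => measurable_of_countable _
  int := fun x => (eP_integral hd h0 h1 _).1
  iso := by
    intro x
    rw [(eP_integral hd h0 h1 _).2, Fintype.sum_option, Fintype.sum_prod_type]
    have hz : nsq ((eO d a s none).transpose.mulVec x) = 0 := by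
      simp [nsq, eO]
    rw [hz, mul_zero, zero_add]
    have h : ∀ J : Fin d, ∑ σ : Bool, ew d δ (some (J, σ)) *
        nsq ((eO d a s (some (J, σ))).transpose.mulVec x) =
        (1 - δ) / d * (nsq x + a ^ 2 * x J.castSucc ^ 2 + s ^ 2 * x (Fin.last d) ^ 2) := by
      intro J
      rw [Fintype.sum_bool, nsq_O, nsq_O]
      show (1 - δ) / (2 * d) * _ + (1 - δ) / (2 * d) * _ = _
      have hd' : (d : ℝ) ≠ 0 := by exact_mod_cast hd.ne'
      simp only [if_true, Bool.false_eq_true, if_false]
      field_simp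
      ring
    rw [Finset.sum_congr rfl fun J _ => h J, ← Finset.mul_sum, Finset.sum_add_distrib,
      Finset.sum_add_distrib, Finset.sum_const, Finset.sum_const, Finset.card_univ,
      Fintype.card_fin, ← Finset.mul_sum, nsmul_eq_mul, nsmul_eq_mul, ha]
    have hx : nsq x = ∑ J : Fin d, x J.castSucc ^ 2 + x (Fin.last d) ^ 2 := by
      unfold nsq
      rw [Fin.sum_univ_castSucc]
    have hd' : (d : ℝ) ≠ 0 := by exact_mod_cast hd.ne'
    have hδ : (1 - δ) ≠ 0 := by linarith
    have h2 : (d : ℝ) * nsq x + d * s ^ 2 * ∑ J : Fin d, x J.castSucc ^ 2 +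
        d * (s ^ 2 * x (Fin.last d) ^ 2) = d * ((1 + s ^ 2) * nsq x) := by
      rw [hx]
      ring
    rw [h2, hs]
    field_simp
    ring
  inj := by
    intro V _
    have hp := eP_prob hd h0 h1
    have hsub : ({none}ᶜ : Set (eS d)) ⊆
        {t | ∀ x ∈ V, α * nsq x ≤ nsq ((eO d a s t).transpose.mulVec x)} := by
      intro t ht x _
      rcases t with _ | ⟨J, σ⟩
      · exact absurd rfl ht
      · rw [nsq_O]
        have h3 := nsq_nonneg x
        nlinarith [sq_nonneg (a * x J.castSucc + (if σ then s else -s) * x (Fin.last d))]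
    refine le_trans ?_ (measure_mono hsub)
    rw [prob_compl_eq_one_sub (MeasurableSet.of_discrete), eP_singleton,
      ENNReal.ofReal_sub 1 h0.le, ENNReal.ofReal_one]
    exact le_rfl

private lemma e_rank (d : ℕ) : (eA d).rank = d := by
  have h : (eA d).transpose * eA d = 1 := by
    ext i j
    rw [Matrix.mul_apply, Fin.sum_univ_castSucc]
    have h1 : (eA d).transpose i (Fin.last d) = 0 := by
      show (if Fin.last d = i.castSucc then (1 : ℝ) else 0) = 0
      rw [if_neg (Fin.castSucc_lt_last i).ne']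
    rw [h1, zero_mul, add_zero]
    have h2 : ∀ l : Fin d, (eA d).transpose i l.castSucc * eA d l.castSucc j =
        if l = i then (if i = j then 1 else 0) else 0 := by
      intro l
      show (if l.castSucc = i.castSucc then (1 : ℝ) else 0) *
        (if l.castSucc = j.castSucc then (1 : ℝ) else 0) = _
      by_cases hl : l = i
      · subst hl
        simp
      · simp [hl]
    rw [Finset.sum_congr rfl fun l _ => h2 l, Finset.sum_ite_eq' Finset.univ i,
      if_pos (Finset.mem_univ _), Matrix.one_apply]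
  rw [← Matrix.rank_transpose_mul_self, h, Matrix.rank_one, Fintype.card_fin]

/-- The value of `A X`. -/
private lemma eA_mul {d p : ℕ} (X : Matrix (Fin d) (Fin p) ℝ) (j : Fin p) :
    (∀ l : Fin d, (eA d * X) l.castSucc j = X l j) ∧ (eA d * X) (Fin.last d) j = 0 := by
  constructor
  · intro l
    rw [Matrix.mul_apply, Finset.sum_eq_single l]
    · show (if l.castSucc = l.castSucc then (1 : ℝ) else 0) * _ = _
      rw [if_pos rfl, one_mul]
    · intro m _ hm
      show (if l.castSucc = m.castSucc then (1 : ℝ) else 0) * _ = _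
      rw [if_neg (fun h => hm (Fin.castSucc_injective _ h).symm), zero_mul]
    · intro h
      exact absurd (Finset.mem_univ _) h
  · rw [Matrix.mul_apply]
    refine Finset.sum_eq_zero fun m _ => ?_
    show (if Fin.last d = m.castSucc then (1 : ℝ) else 0) * _ = _
    rw [if_neg (Fin.castSucc_lt_last m).ne', zero_mul]

private lemma eB_apply {d p : ℕ} (hd : 0 < d) (j : Fin p) :
    (∀ l : Fin d, eB d p l.castSucc j = if l.castSucc = 0 then 1 else 0) ∧
      eB d p (Fin.last d) j = 1 := by
  constructor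
  · intro l
    show (if l.castSucc = 0 then (1 : ℝ) else 0) + (if l.castSucc = Fin.last d then 1 else 0) = _
    rw [if_neg (Fin.castSucc_lt_last l).ne, add_zero]
  · show (if Fin.last d = 0 then (1 : ℝ) else 0) + (if Fin.last d = Fin.last d then 1 else 0) = _
    rw [if_neg, if_pos rfl, zero_add]
    intro h
    rw [Fin.ext_iff] at h
    simp at h
    omega

private lemma e_frob {d p : ℕ} (hd : 0 < d) (X : Matrix (Fin d) (Fin p) ℝ) :
    frob (eA d * X - eB d p) =
      Real.sqrt (∑ l : Fin d, ∑ j, (X l j - if l.castSucc = 0 then 1 else 0) ^ 2 + p) := by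
  unfold frob
  congr 1
  rw [Fin.sum_univ_castSucc]
  congr 1
  · refine Finset.sum_congr rfl fun l _ => Finset.sum_congr rfl fun j _ => ?_
    rw [Matrix.sub_apply, (eA_mul X j).1, (eB_apply hd j).1]
  · have h : ∀ j : Fin p, (eA d * X - eB d p) (Fin.last d) j ^ 2 = 1 := by
      intro j
      rw [Matrix.sub_apply, (eA_mul X j).2, (eB_apply hd j).2]
      norm_num
    rw [Finset.sum_congr rfl fun j _ => h j]
    simp

private lemma e_opt {d p : ℕ} (hd : 0 < d) : opt (eA d) (eB d p) = Real.sqrt p := by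
  unfold opt
  apply le_antisymm
  · refine (ciInf_le ⟨0, ?_⟩ (Matrix.of fun l _ => if l.castSucc = 0 then 1 else 0)).trans ?_
    · rintro _ ⟨X, rfl⟩
      exact Real.sqrt_nonneg _
    · rw [e_frob hd]
      simp
  · refine le_ciInf fun X => ?_
    rw [e_frob hd]
    apply Real.sqrt_le_sqrt
    have : 0 ≤ ∑ l : Fin d, ∑ j, (X l j - if l.castSucc = 0 then 1 else 0) ^ 2 :=
      Finset.sum_nonneg fun _ _ => Finset.sum_nonneg fun _ _ => sq_nonneg _
    linarith

/-- The normal equations. -/
private lemma normal_eq {a b p : ℕ} {M : Matrix (Fin a) (Fin b) ℝ} {G : Matrix (Fin b) (Fin a) ℝ}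
    (h : IsPinv M G) (Y : Matrix (Fin a) (Fin p) ℝ) :
    M.transpose * (M * (G * Y)) = M.transpose * Y := by
  obtain ⟨h1, _, h3, _⟩ := h
  have h4 : M.transpose * (M * G) = M.transpose := by
    rw [← h3, ← Matrix.transpose_mul, h1]
  rw [← Matrix.mul_assoc M, ← Matrix.mul_assoc, h4]

private lemma e_gram {d p : ℕ} (a s : ℝ) (J : Fin d) (σ : Bool)
    (Z : Matrix (Fin (d + 1)) (Fin p) ℝ) (l : Fin d) (j : Fin p) :
    (((eO d a s (some (J, σ))).transpose * eA d).transpose *
      ((eO d a s (some (J, σ))).transpose * Z)) l j =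
      Z l.castSucc j + (if l = J then a else 0) *
        (a * Z J.castSucc j + (if σ then s else -s) * Z (Fin.last d) j) := by
  have h1 : ∀ t, ((eO d a s (some (J, σ))).transpose * eA d).transpose l t =
      eO d a s (some (J, σ)) l.castSucc t := by
    intro t
    rw [Matrix.transpose_apply, Matrix.mul_apply, Finset.sum_eq_single l.castSucc]
    · rw [Matrix.transpose_apply]
      show _ * (if l.castSucc = l.castSucc then (1 : ℝ) else 0) = _
      rw [if_pos rfl, mul_one]
    · intro i _ hi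
      show _ * (if i = l.castSucc then (1 : ℝ) else 0) = _
      rw [if_neg hi, mul_zero]
    · intro h
      exact absurd (Finset.mem_univ _) h
  rw [Matrix.mul_apply, Finset.sum_congr rfl fun t _ => by rw [h1 t], Fin.sum_univ_castSucc]
  congr 1
  · rw [Finset.sum_eq_single l.castSucc]
    · have h2 : eO d a s (some (J, σ)) l.castSucc (l.castSucc).castSucc = 1 := by
        simp [eO]
      rw [h2, one_mul, Matrix.mul_apply, Finset.sum_eq_single l.castSucc]
      · rw [Matrix.transpose_apply, h2, one_mul]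
      · intro i _ hi
        have h3 : eO d a s (some (J, σ)) i (l.castSucc).castSucc = 0 := by
          simp [eO, hi]
        rw [Matrix.transpose_apply, h3, zero_mul]
      · intro h
        exact absurd (Finset.mem_univ _) h
    · intro t _ ht
      have h3 : eO d a s (some (J, σ)) l.castSucc t.castSucc = 0 := by
        simp [eO, Ne.symm ht]
      rw [h3, zero_mul]
    · intro h
      exact absurd (Finset.mem_univ _) h
  · congr 1
    · have h2 : eO d a s (some (J, σ)) l.castSucc (Fin.last (d + 1)) = eu d a s J σ l.castSucc := by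
        simp [eO]
      rw [h2]
      unfold eu
      rw [if_neg (Fin.castSucc_lt_last l).ne, add_zero]
      by_cases hl : l = J
      · rw [hl, if_pos rfl, if_pos rfl]
      · rw [if_neg hl, if_neg fun h => hl (Fin.castSucc_injective _ h)]
    · have h2 : ∀ i, eO d a s (some (J, σ)) i (Fin.last (d + 1)) = eu d a s J σ i := by
        intro i
        simp [eO]
      rw [Matrix.mul_apply]
      have h3 : ∀ i, (eO d a s (some (J, σ))).transpose (Fin.last (d + 1)) i * Z i j =
          (if i = J.castSucc then a * Z i j else 0) +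
            (if i = Fin.last d then (if σ then s else -s) * Z i j else 0) := by
        intro i
        rw [Matrix.transpose_apply, h2]
        unfold eu
        rw [add_mul, ite_mul, ite_mul, zero_mul]
      rw [Finset.sum_congr rfl fun i _ => h3 i, Finset.sum_add_distrib, Finset.sum_ite_eq',
        Finset.sum_ite_eq', if_pos (Finset.mem_univ _), if_pos (Finset.mem_univ _)]

private lemma e_exists {d : ℕ} (a s : ℝ) (t : eS d) :
    ∃ G, IsPinv ((eO d a s t).transpose * eA d) G := by
  rcases t with _ | ⟨J, σ⟩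
  · refine ⟨0, ?_⟩
    have h : (eO d a s none).transpose * eA d = 0 := by
      have h' : eO d a s none = 0 := rfl
      rw [h', Matrix.transpose_zero, Matrix.zero_mul]
    rw [h]
    simp [IsPinv]
  · set M := (eO d a s (some (J, σ))).transpose * eA d with hM
    have hMM : M.transpose * M = Matrix.diagonal fun l => 1 + if l = J then a ^ 2 else 0 := by
      ext l l'
      rw [hM, e_gram]
      show (if l.castSucc = l'.castSucc then (1 : ℝ) else 0) + (if l = J then a else 0) *
        (a * (if J.castSucc = l'.castSucc then (1 : ℝ) else 0) + (if σ then s else -s) *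
          (if Fin.last d = l'.castSucc then (1 : ℝ) else 0)) = _
      rw [if_neg (Fin.castSucc_lt_last l').ne', mul_zero, add_zero, Matrix.diagonal_apply]
      by_cases h1 : l = l'
      · subst h1
        by_cases h2 : l = J
        · subst h2
          simp
          ring
        · simp [h2]
      · by_cases h2 : l = J
        · subst h2
          simp [h1]
        · simp [h1, h2]
    set D := Matrix.diagonal fun l : Fin d => (1 + if l = J then a ^ 2 else 0)⁻¹ with hD
    have hDM : D * (M.transpose * M) = 1 := by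
      rw [hMM, hD, Matrix.diagonal_mul_diagonal, ← Matrix.diagonal_one]
      congr 1
      funext l
      apply inv_mul_cancel₀
      have : (0 : ℝ) ≤ if l = J then a ^ 2 else 0 := by
        split_ifs
        · exact sq_nonneg a
        · exact le_rfl
      linarith
    have hDt : D.transpose = D := by rw [hD, Matrix.diagonal_transpose]
    refine ⟨D * M.transpose, ?_, ?_, ?_, ?_⟩
    · rw [Matrix.mul_assoc M, Matrix.mul_assoc D, hDM, Matrix.mul_one]
    · rw [Matrix.mul_assoc D, hDM, Matrix.one_mul]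
    · rw [Matrix.transpose_mul, Matrix.transpose_mul, Matrix.transpose_transpose, hDt,
        Matrix.mul_assoc]
    · rw [Matrix.mul_assoc, hDM, Matrix.transpose_one]

private lemma e_main {d p : ℕ} (hd : 0 < d) {δ : ℝ} (h0 : 0 < δ) (h1 : δ < 1) {a s : ℝ}
    (hs : s ^ 2 = δ / (1 - δ)) (ha : a ^ 2 = d * s ^ 2) (t : eS d)
    {G : Matrix (Fin d) (Fin (d + 2)) ℝ} (hG : IsPinv ((eO d a s t).transpose * eA d) G) :
    Real.sqrt (1 + d * δ ^ 2 / (1 + (d - 1) * δ) ^ 2) * opt (eA d) (eB d p) ≤
      frob (eA d * (G * ((eO d a s t).transpose * eB d p)) - eB d p) := by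
  have hd1 : (1 : ℝ) ≤ d := by exact_mod_cast hd
  have hD : 0 < 1 + ((d : ℝ) - 1) * δ := by nlinarith
  have hq : 0 ≤ d * δ ^ 2 / (1 + ((d : ℝ) - 1) * δ) ^ 2 := by positivity
  rw [e_opt hd, ← Real.sqrt_mul (by linarith), e_frob hd]
  apply Real.sqrt_le_sqrt
  set X := G * ((eO d a s t).transpose * eB d p) with hX
  have hle : ∀ J : Fin d, ∑ j, (X J j - if J.castSucc = 0 then 1 else 0) ^ 2 ≤
      ∑ l : Fin d, ∑ j, (X l j - if l.castSucc = 0 then 1 else 0) ^ 2 := fun J =>
    Finset.single_le_sum (f := fun l : Fin d =>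
      ∑ j, (X l j - if l.castSucc = 0 then 1 else 0) ^ 2)
      (fun _ _ => Finset.sum_nonneg fun _ _ => sq_nonneg _) (Finset.mem_univ J)
  rcases t with _ | ⟨J, σ⟩
  · have hX0 : X = 0 := by
      have h' : eO d a s none = 0 := rfl
      rw [hX, h', Matrix.transpose_zero, Matrix.zero_mul, Matrix.mul_zero]
    have h2 := hle ⟨0, hd⟩
    have h3 : (⟨0, hd⟩ : Fin d).castSucc = 0 := rfl
    have h4 : ∑ j : Fin p, (X ⟨0, hd⟩ j - if (⟨0, hd⟩ : Fin d).castSucc = 0 then (1 : ℝ) else 0) ^ 2 =
        p := by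
      rw [h3, if_pos rfl, hX0]
      simp
    rw [h4] at h2
    have h5 : d * δ ^ 2 / (1 + ((d : ℝ) - 1) * δ) ^ 2 ≤ 1 := by
      rw [div_le_one (by positivity)]
      have h6 : 0 ≤ ((d : ℝ) - 1) * δ := mul_nonneg (by linarith) h0.le
      nlinarith [mul_nonneg h6 h0.le, mul_nonneg h6 h6, mul_nonneg h6 (by linarith : 0 ≤ 1 - δ)]
    have h7 : (0 : ℝ) ≤ p := Nat.cast_nonneg p
    nlinarith
  · have h2 := normal_eq hG ((eO d a s (some (J, σ))).transpose * eB d p)
    rw [← hX, Matrix.mul_assoc] at h2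
    have h3 : ∀ j : Fin p, (1 + a ^ 2) * (X J j - if J.castSucc = 0 then 1 else 0) =
        a * (if σ then s else -s) := by
      intro j
      have h4 := congrFun (congrFun h2 J) j
      rw [e_gram, e_gram, (eA_mul X j).1, (eA_mul X j).2, (eB_apply hd j).1, (eB_apply hd j).2,
        if_pos rfl] at h4
      linear_combination h4
    have h5 : ∀ j : Fin p, (X J j - if J.castSucc = 0 then 1 else 0) ^ 2 =
        d * δ ^ 2 / (1 + ((d : ℝ) - 1) * δ) ^ 2 := by
      intro j
      have h6 : ((1 + a ^ 2) * (X J j - if J.castSucc = 0 then 1 else 0)) ^ 2 = a ^ 2 * s ^ 2 := by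
        rw [h3 j]
        cases σ <;> simp <;> ring
      rw [mul_pow, ha, hs] at h6
      have h7 : (1 - δ) ≠ 0 := by linarith
      have h8 : (1 : ℝ) + d * (δ / (1 - δ)) = (1 + ((d : ℝ) - 1) * δ) / (1 - δ) := by
        field_simp
        ring
      rw [h8] at h6
      rw [eq_div_iff (by positivity)]
      field_simp at h6
      linear_combination h6
    have h9 := hle J
    rw [Finset.sum_congr rfl fun j _ => h5 j, Finset.sum_const, Finset.card_univ,
      Fintype.card_fin, nsmul_eq_mul] at h9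
    linarith

/-- The parameters of the sketch. -/
private lemma e_param (d : ℕ) {δ : ℝ} (h0 : 0 < δ) (h1 : δ < 1) :
    ∃ a s : ℝ, s ^ 2 = δ / (1 - δ) ∧ a ^ 2 = d * s ^ 2 := by
  have h2 : 0 ≤ δ / (1 - δ) := div_nonneg h0.le (by linarith)
  refine ⟨Real.sqrt (d * (δ / (1 - δ))), Real.sqrt (δ / (1 - δ)), Real.sq_sqrt h2, ?_⟩
  rw [Real.sq_sqrt (by positivity), Real.sq_sqrt h2]

theorem result :
    (∀ (d p : ℕ) (δ : ℝ), 0 < d → 0 < p → 0 < δ → δ < 1 →
      ∃ (A : Matrix (Fin (d + 1)) (Fin d) ℝ) (B : Matrix (Fin (d + 1)) (Fin p) ℝ)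
        (S : Type) (_ : MeasurableSpace S) (P : Measure S)
        (Ω : S → Matrix (Fin (d + 1)) (Fin (d + 2)) ℝ),
        A.rank = d ∧ IsOSI P Ω d 1 δ ∧ 0 < opt A B ∧
        ∀ s : S, (∃ G, IsPinv ((Ω s).transpose * A) G) ∧
          ∀ G, IsPinv ((Ω s).transpose * A) G →
            Real.sqrt (1 + d * δ ^ 2 / (1 + (d - 1) * δ) ^ 2) * opt A B ≤
              frob (A * (G * ((Ω s).transpose * B)) - B)) ∧
    (∀ (C : ℝ) (d p : ℕ), 0 < d → 0 < p → ∃ ε₀ : ℝ, 0 < ε₀ ∧ ∀ ε : ℝ, 0 < ε → ε < ε₀ → ε < 1 ∧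
      ∃ (A : Matrix (Fin (d + 1)) (Fin d) ℝ) (B : Matrix (Fin (d + 1)) (Fin p) ℝ)
        (S : Type) (_ : MeasurableSpace S) (P : Measure S)
        (Ω : S → Matrix (Fin (d + 1)) (Fin (d + 2)) ℝ),
        A.rank = d ∧ IsOSI P Ω d (1 - ε) (1 / 100) ∧ 0 < opt A B ∧
        ∀ s : S, (∃ G, IsPinv ((Ω s).transpose * A) G) ∧
          ∀ G, IsPinv ((Ω s).transpose * A) G →
            (1 + C * ε) * opt A B < frob (A * (G * ((Ω s).transpose * B)) - B)) ∧
    (∀ δ : ℝ, 0 < δ → δ < 1 → ∃ d : ℕ, 0 < d ∧
      δ / 4 ≤ d * δ ^ 2 / (1 + (d - 1) * δ) ^ 2) := by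
  refine ⟨?_, ?_, ?_⟩
  · intro d p δ hd hp h0 h1
    obtain ⟨a, s, hs, ha⟩ := e_param d h0 h1
    refine ⟨eA d, eB d p, eS d, inferInstance, eP d δ, eO d a s, e_rank d,
      e_osi hd h0 h1 hs ha le_rfl d, ?_, fun t => ⟨e_exists a s t, fun G hG => ?_⟩⟩
    · rw [e_opt hd]
      apply Real.sqrt_pos.2
      exact_mod_cast hp
    · exact e_main hd h0 h1 hs ha t hG
  · intro C d p hd hp
    have h0 : (0 : ℝ) < 1 / 100 := by norm_num
    have h1 : (1 : ℝ) / 100 < 1 := by norm_num
    have hd1 : (1 : ℝ) ≤ d := by exact_mod_cast hd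
    set κ : ℝ := Real.sqrt (1 + d * (1 / 100) ^ 2 / (1 + (d - 1) * (1 / 100)) ^ 2) with hκ
    have hκ1 : 1 < κ := by
      have h2 : 0 < 1 + ((d : ℝ) - 1) * (1 / 100) := by nlinarith
      have h3 : 0 < (d : ℝ) * (1 / 100) ^ 2 / (1 + (d - 1) * (1 / 100)) ^ 2 := by positivity
      apply Real.lt_sqrt_of_sq_lt
      linarith
    refine ⟨min (1 / 2) ((κ - 1) / (|C| + 1)), lt_min (by norm_num) ?_, fun ε hε hε0 => ⟨?_, ?_⟩⟩
    · have : 0 < |C| + 1 := by positivity
      exact div_pos (by linarith) this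
    · have := hε0.trans_le (min_le_left _ _)
      linarith
    · have h2 : ε < (κ - 1) / (|C| + 1) := hε0.trans_le (min_le_right _ _)
      have h3 : 0 < |C| + 1 := by positivity
      have h4 : 1 + C * ε < κ := by
        rw [lt_div_iff₀ h3] at h2
        nlinarith [le_abs_self C]
      obtain ⟨a, s, hs, ha⟩ := e_param d h0 h1
      have h6 : 0 < opt (eA d) (eB d p) := by
        rw [e_opt hd]
        apply Real.sqrt_pos.2
        exact_mod_cast hp
      refine ⟨eA d, eB d p, eS d, inferInstance, eP d (1 / 100), eO d a s, e_rank d,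
        e_osi hd h0 h1 hs ha (by linarith) d, h6, fun t => ⟨e_exists a s t, fun G hG => ?_⟩⟩
      have h5 := e_main (p := p) hd h0 h1 hs ha t hG
      refine lt_of_lt_of_le ?_ h5
      exact mul_lt_mul_of_pos_right h4 h6
  · intro δ h0 h1
    have h2 : (1 : ℝ) / δ ≤ ⌈(1 : ℝ) / δ⌉₊ := Nat.le_ceil _
    have h3 : (⌈(1 : ℝ) / δ⌉₊ : ℝ) < 1 / δ + 1 := Nat.ceil_lt_add_one (by positivity)
    refine ⟨⌈(1 : ℝ) / δ⌉₊, Nat.ceil_pos.2 (by positivity), ?_⟩
    set D : ℝ := (⌈(1 : ℝ) / δ⌉₊ : ℝ) with hD
    have h4 : 1 ≤ D * δ := by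
      rw [div_le_iff₀ h0] at h2
      exact h2
    have h5 : D * δ < 1 + δ := by
      have h6 := mul_lt_mul_of_pos_right h3 h0
      rw [add_mul, one_div, inv_mul_cancel₀ h0.ne', one_mul] at h6
      exact h6
    have h7 : 0 < 1 + (D - 1) * δ := by nlinarith
    have h8 : 1 + (D - 1) * δ ≤ 2 := by nlinarith
    rw [le_div_iff₀ (by positivity)]
    have h9 : (1 + (D - 1) * δ) ^ 2 ≤ 4 := by nlinarith
    nlinarith [mul_le_mul_of_nonneg_left h9 h0.le, mul_le_mul_of_nonneg_right h4 h0.le]

end Pool.Agent.Results.MP_4d58d7_an.SureFactor
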